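import Mathlib
import Pool.Agent.Y234.FP.Stm

set_option autoImplicit false

open MvPolynomial

namespace Pool.Agent.Y171.FP

universe u

/-- exponent vectors of degree less than `m` -/
noncomputable def S (r m : ℕ) : Finset (Fin r →₀ ℕ) := by
  classical
  exact (Finset.range m).biUnion fun n => (Finset.univ : Finset (Fin r)).finsuppAntidiag n

lemma mem_S {r m : ℕ} (x : Fin r →₀ ℕ) : x ∈ S r m ↔ Finsupp.degree x < m := by
  classical
  simp only [S, Finset.mem_biUnion, Finset.mem_range, Finset.mem_finsuppAntidiag,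
    Finset.subset_univ, and_true, Finsupp.degree_eq_sum]
  constructor
  · rintro ⟨n, hn, hx⟩
    rw [hx]
    exact hn
  · intro h
    exact ⟨_, h, rfl⟩

lemma card_S (r m : ℕ) (hm : 1 ≤ m) : (S r m).card = (r + m - 1).choose r := by
  classical
  obtain ⟨m, rfl⟩ := Nat.exists_eq_add_of_le' hm
  rw [S, Finset.card_biUnion]
  · simp only [Finset.card_finsuppAntidiag_nat_eq_multichoose, Finset.card_univ, Fintype.card_fin]
    rw [Nat.sum_range_multichoose]
    congr 1
    omega
  · intro i _ j _ hij
    change Disjoint _ _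
    rw [Finset.disjoint_left]
    intro x hx hx'
    rw [Finset.mem_finsuppAntidiag] at hx hx'
    exact hij (hx.1.symm.trans hx'.1)

variable (k : Type u) [Field k] (r m : ℕ)

/-- the coefficients in degrees less than `m` -/
noncomputable def cf : MvPolynomial (Fin r) k →ₗ[k] (S r m → k) :=
  LinearMap.pi fun s => lcoeff k s.1

lemma cf_surj : Function.Surjective (cf k r m) := by
  classical
  intro g
  refine ⟨∑ s : S r m, monomial s.1 (g s), ?_⟩
  funext t
  simp only [cf, LinearMap.pi_apply, lcoeff_apply, coeff_sum, coeff_monomial]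
  rw [Finset.sum_eq_single t]
  · simp
  · intro s _ hs
    rw [if_neg]
    intro h
    exact hs (Subtype.ext h)
  · intro h
    exact absurd (Finset.mem_univ _) h

lemma cf_ker : LinearMap.ker (cf k r m) =
    ((Ideal.span (Set.range (X : Fin r → MvPolynomial (Fin r) k))) ^ m).restrictScalars k := by
  ext p
  rw [LinearMap.mem_ker, Submodule.restrictScalars_mem]
  rw [show (p ∈ (Ideal.span (Set.range (X : Fin r → MvPolynomial (Fin r) k))) ^ m) ↔
    ∀ x, Finsupp.degree x < m → p.coeff x = 0 from mem_pow_idealOfVars_iff' m p]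
  constructor
  · intro h x hx
    have := congrFun h ⟨x, (mem_S x).2 hx⟩
    simpa [cf] using this
  · intro h
    funext s
    simpa [cf] using h s.1 ((mem_S s.1).1 s.2)

/-- the ring is a finite-dimensional vector space with basis the monomials of degree less than
`m` -/
noncomputable def eqv : Pool.Agent.Y234.FP.Bq k r m ≃ₗ[k] (S r m → k) :=
  (Submodule.Quotient.restrictScalarsEquiv k
      ((Ideal.span (Set.range (X : Fin r → MvPolynomial (Fin r) k))) ^ m)).symm ≪≫ₗ
    Submodule.quotEquivOfEq _ _ (cf_ker k r m).symm ≪≫ₗ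
      (cf k r m).quotKerEquivOfSurjective (cf_surj k r m)

theorem t_BL : Pool.Agent.Y234.FP.St_BL.{u} := by
  intro k _ r m hr hm
  have hfin : Module.Finite k (Pool.Agent.Y234.FP.Bq k r m) :=
    Module.Finite.equiv (eqv k r m).symm
  have hrank : Module.finrank k (Pool.Agent.Y234.FP.Bq k r m) = (r + m - 1).choose r := by
    rw [(eqv k r m).finrank_eq, Module.finrank_pi, Fintype.card_coe, card_S r m (by omega)]
  have hart : IsArtinianRing (Pool.Agent.Y234.FP.Bq k r m) :=
    IsArtinianRing.of_finite k (Pool.Agent.Y234.FP.Bq k r m)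
  have hX : ∀ i : Fin r, (Ideal.Quotient.mk
      ((Ideal.span (Set.range (X : Fin r → MvPolynomial (Fin r) k))) ^ m)) (X i) ^ m = 0 := by
    intro i
    rw [← map_pow, Ideal.Quotient.eq_zero_iff_mem]
    exact Ideal.pow_mem_pow (Ideal.subset_span (Set.mem_range_self i)) m
  have hntr : Nontrivial (Pool.Agent.Y234.FP.Bq k r m) := by
    refine Ideal.Quotient.nontrivial_iff.2 ?_
    rw [Ne, Ideal.eq_top_iff_one]
    intro h
    have h1 := (mem_pow_idealOfVars_iff' m (1 : MvPolynomial (Fin r) k)).1 h 0 (by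
      rw [map_zero]; omega)
    simp at h1
  have key : ∀ (Q : Ideal (Pool.Agent.Y234.FP.Bq k r m)), Q.IsPrime →
      ∀ p : MvPolynomial (Fin r) k, Ideal.Quotient.mk
      ((Ideal.span (Set.range (X : Fin r → MvPolynomial (Fin r) k))) ^ m) p ∈ Q ↔
        constantCoeff p = 0 := by
    intro Q hQ p
    have hPQ : Ideal.span (Set.range (X : Fin r → MvPolynomial (Fin r) k)) ≤
        Q.comap (Ideal.Quotient.mk
          ((Ideal.span (Set.range (X : Fin r → MvPolynomial (Fin r) k))) ^ m)) := by
      rw [Ideal.span_le]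
      rintro _ ⟨i, rfl⟩
      refine hQ.mem_of_pow_mem m ?_
      rw [hX i]
      exact Q.zero_mem
    have hp : p - C (constantCoeff p) ∈
        Ideal.span (Set.range (X : Fin r → MvPolynomial (Fin r) k)) := by
      have h := (mem_pow_idealOfVars_iff' 1 (p - C (constantCoeff p))).2 (by
        intro x hx
        have hx0 : x = 0 := by
          rw [← Finsupp.degree_eq_zero_iff]
          omega
        rw [hx0, coeff_sub, coeff_C, if_pos rfl, constantCoeff_eq, sub_self])
      rwa [pow_one] at h
    have h2 : Ideal.Quotient.mk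
      ((Ideal.span (Set.range (X : Fin r → MvPolynomial (Fin r) k))) ^ m)
        (p - C (constantCoeff p)) ∈ Q := hPQ hp
    rw [map_sub] at h2
    constructor
    · intro h
      by_contra hc
      have h3 : Ideal.Quotient.mk
        ((Ideal.span (Set.range (X : Fin r → MvPolynomial (Fin r) k))) ^ m)
        (C (constantCoeff p)) ∈ Q := by
        have := Q.sub_mem h h2
        rwa [sub_sub_cancel] at this
      refine hQ.ne_top (Ideal.eq_top_of_isUnit_mem Q h3 ?_)
      exact ((IsUnit.mk0 _ hc).map (C : k →+* MvPolynomial (Fin r) k)).map (Ideal.Quotient.mk _)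
    · intro h
      rw [h, map_zero, map_zero, sub_zero] at h2
      exact h2
  have hsub : Subsingleton (PrimeSpectrum (Pool.Agent.Y234.FP.Bq k r m)) := by
    refine ⟨fun P Q => ?_⟩
    apply PrimeSpectrum.ext
    ext x
    obtain ⟨p, rfl⟩ := Ideal.Quotient.mk_surjective x
    rw [key _ P.2, key _ Q.2]
  have hloc : IsLocalRing (Pool.Agent.Y234.FP.Bq k r m) := by
    have : Subsingleton (MaximalSpectrum (Pool.Agent.Y234.FP.Bq k r m)) :=
      MaximalSpectrum.toPrimeSpectrum_injective.subsingleton
    exact IsLocalRing.of_singleton_maximalSpectrum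
  refine ⟨hloc, hart, ?_, hsub, hrank⟩
  intro hF
  obtain ⟨y, hy⟩ : ∃ y : Pool.Agent.Y234.FP.Bq k r m, y ≠ 0 ∧ y ^ m = 0 := by
    refine ⟨Ideal.Quotient.mk _ (X ⟨0, hr⟩), ?_, hX _⟩
    rw [Ne, Ideal.Quotient.eq_zero_iff_mem]
    intro h
    have h1 := (mem_pow_idealOfVars_iff' m (X ⟨0, hr⟩ : MvPolynomial (Fin r) k)).1 h
      (Finsupp.single ⟨0, hr⟩ 1) (by rw [Finsupp.degree_single]; omega)
    simp at h1
  obtain ⟨z, hz⟩ := hF.mul_inv_cancel hy.1
  have : (y * z) ^ m = 0 := by rw [mul_pow, hy.2, zero_mul]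
  rw [hz, one_pow] at this
  exact one_ne_zero this

end Pool.Agent.Y171.FP
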